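import Pool.Agent.helper32.EX.SpecD

set_option autoImplicit false
set_option linter.unusedVariables false
set_option linter.unusedSectionVars false

namespace Pool.Agent.EX

theorem UPG_bound {n : ℕ} (C : Matrix (Fin n) (Fin n) ℤ) [Fact (Dyn C)] :
    ∃ H : ℕ, ∀ α : Rt C, |∑ i, α.1 i| ≤ (H : ℤ) := by
  have hf : (Set.range fun α : Rt C => (∑ i, α.1 i).natAbs).Finite := Set.finite_range _
  obtain ⟨H, hH⟩ := hf.bddAbove
  refine ⟨H, fun α => ?_⟩
  have h := hH ⟨α, rfl⟩
  rw [Int.abs_eq_natAbs]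
  exact_mod_cast h

theorem UPG_pow {n : ℕ} (C : Matrix (Fin n) (Fin n) ℤ) [Fact (Dyn C)] (F : Type) [Field F]
    (N : Module.End F (LV C F)) (hN : ∀ j : ℤ, ∀ v ∈ VG C F j, N v ∈ VG C F (j + 1)) (j : ℤ) (m : ℕ) :
    ∀ v ∈ VG C F j, (N ^ m) v ∈ VG C F (j + m) := by
  induction m with
  | zero =>
    intro v hv
    simpa using hv
  | succ m ih =>
    intro v hv
    have h := hN _ _ (ih v hv)
    rw [pow_succ']
    have e : j + ((m + 1 : ℕ) : ℤ) = j + m + 1 := by push_cast; ring
    rw [e]
    exact h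

/-- Row UPG. -/
theorem UPG (hFLK : FLK_stmt) : UPG_stmt := by
  intro n C _ F _ p hp hchar u hu
  obtain ⟨H, hH⟩ := UPG_bound C
  have : Fact p.Prime := ⟨hp⟩
  set φ : (LV C F ≃ₗ[F] LV C F) →* Module.End F (LV C F) := LinearEquiv.automorphismGroup.toLinearMapMonoidHom with hφ
  have hφa : ∀ (g : LV C F ≃ₗ[F] LV C F) (v : LV C F), φ g v = g v := fun g v => rfl
  by_cases hV : Nontrivial (LV C F)
  · set N : Module.End F (LV C F) := φ u - 1 with hNdef
    have hN : ∀ j : ℤ, ∀ v ∈ VG C F j, N v ∈ VG C F (j + 1) := by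
      intro j v hv
      have := ((hFLK C F).2 u hu j v hv).1
      have e : N v = u v - v := rfl
      rw [e]
      exact this
    have hNz : N ^ (2 * H + 1) = 0 := by
      refine LinearMap.ext fun v => ?_
      have hv : v ∈ VG C F (-(H : ℤ)) := by
        refine ⟨fun h => ?_, fun α h => ?_⟩
        · exfalso
          omega
        · exfalso
          have := abs_le.1 (hH α)
          omega
      have h2 := UPG_pow C F N hN (-(H : ℤ)) (2 * H + 1) v hv
      rw [LinearMap.zero_apply]
      have h3 : (-(H : ℤ)) + ((2 * H + 1 : ℕ) : ℤ) = H + 1 := by push_cast; ring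
      rw [h3] at h2
      refine Prod.ext ?_ ?_
      · exact h2.1 (by positivity)
      · funext α
        refine h2.2 α ?_
        have := abs_le.1 (hH α)
        omega
    have hchar2 : CharP (Module.End F (LV C F)) p :=
      charP_of_injective_algebraMap (algebraMap F (Module.End F (LV C F))).injective p
    obtain ⟨k, hk⟩ : ∃ k : ℕ, 2 * H + 1 ≤ p ^ k := by
      obtain ⟨k, hk⟩ := pow_unbounded_of_one_lt (2 * H + 1) hp.one_lt
      exact ⟨k, hk.le⟩
    have hNk : N ^ (p ^ k) = 0 := by
      rw [← Nat.sub_add_cancel hk, pow_add, hNz, mul_zero]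
    refine ⟨k, ?_⟩
    have e1 : (φ u) ^ (p ^ k) = 1 := by
      have e2 : φ u = 1 + N := by rw [hNdef]; abel
      rw [e2, add_pow_char_pow_of_commute p (n := k) (Commute.one_left N), hNk, one_pow, add_zero]
    have e3 : φ (u ^ (p ^ k)) = φ 1 := by
      rw [map_pow, e1, map_one]
    apply LinearEquiv.ext
    intro v
    rw [← hφa, e3, hφa]
  · refine ⟨0, ?_⟩
    have hs : Subsingleton (LV C F) := not_nontrivial_iff_subsingleton.1 hV
    apply LinearEquiv.ext
    intro v
    exact Subsingleton.elim _ _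

end Pool.Agent.EX
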